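import Pool.Agent.Run7.h719.MO.Iface

set_option autoImplicit false

open MeasureTheory Set Filter Real
open scoped ContDiff Topology

namespace Run7.h817.MO

open Run7.h719.MO

theorem t_AG (h : S_PAR) : S_AG := by
  intro c G hG h0
  refine ⟨?_, fun x hx => ?_⟩
  · rw [contDiff_iff_contDiffAt]
    intro x₀
    obtain ⟨M, hM0, hM⟩ : ∃ M : ℝ, 0 < M ∧ x₀ < c + M ^ 2 := by
      refine ⟨|x₀ - c| + 1, by positivity, ?_⟩
      have h1 := le_abs_self (x₀ - c)
      have h2 := abs_nonneg (x₀ - c)
      nlinarith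
    have h1 : ContDiff ℝ ∞ (fun x : ℝ => ∫ η in (-M)..M, G (x - η ^ 2)) := by
      apply h.1 (-M) M (fun p => G (p.1 - p.2 ^ 2))
      exact hG.comp (contDiff_fst.sub (contDiff_snd.pow 2))
    refine h1.contDiffAt.congr_of_eventuallyEq ?_
    filter_upwards [Iio_mem_nhds hM] with x hx
    rw [mem_Iio] at hx
    symm
    apply intervalIntegral.integral_eq_integral_of_support_subset
    intro η hη
    rw [Function.mem_support] at hη
    have h2 : c < x - η ^ 2 := by
      by_contra hc
      exact hη (h0 _ (not_lt.1 hc))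
    have h3 : η ^ 2 < M ^ 2 := by linarith
    have h4 := abs_lt_of_sq_lt_sq h3 hM0.le
    rw [abs_lt] at h4
    exact ⟨h4.1, h4.2.le⟩
  · have h1 : (fun η : ℝ => G (x - η ^ 2)) = fun _ => 0 := by
      funext η
      apply h0
      have := sq_nonneg η
      linarith
    rw [h1, integral_zero]

end Run7.h817.MO
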