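import Pool.Agent.Run7.h817.MO.DER

set_option autoImplicit false

open MeasureTheory Set Filter Real
open scoped ContDiff Topology

namespace Run7.h817.MO

open Run7.h719.MO

theorem int_contDiff (h : S_DER) (c : ℝ) (n : ℕ) : ∀ (N : ℝ × ℝ → ℝ) (Ψ : ℝ → ℝ), ContDiff ℝ ∞ N →
    ContDiff ℝ n Ψ → ContDiff ℝ (n + 1 : ℕ) (fun x => ∫ τ in c..x, N (τ, x) * Ψ τ) := by
  induction n with
  | zero =>
    intro N Ψ hN hΨ
    have hΨc : Continuous Ψ := hΨ.continuous
    obtain ⟨hs, -⟩ := smooth_partial N hN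
    have hD := h c N Ψ hN hΨc
    have hD2 := h c _ Ψ hs hΨc
    have hc2 : Continuous (fun x => ∫ τ in c..x, deriv (fun y => N (τ, y)) x * Ψ τ) :=
      continuous_iff_continuousAt.2 fun x => (hD2 x).continuousAt
    have hNc := hN.continuous
    have e : deriv (fun x => ∫ τ in c..x, N (τ, x) * Ψ τ) =
        fun x => N (x, x) * Ψ x + ∫ τ in c..x, deriv (fun y => N (τ, y)) x * Ψ τ :=
      funext fun x => (hD x).deriv
    have h1 : (((0 + 1 : ℕ) : ℕ) : WithTop ℕ∞) = ((0 : ℕ) : WithTop ℕ∞) + 1 := by norm_num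
    rw [h1, contDiff_succ_iff_deriv]
    refine ⟨fun x => (hD x).differentiableAt, by simp, ?_⟩
    have h0 : (((0 : ℕ) : ℕ) : WithTop ℕ∞) = 0 := rfl
    rw [e, h0, contDiff_zero]
    fun_prop
  | succ n ih =>
    intro N Ψ hN hΨ
    have hΨc : Continuous Ψ := hΨ.continuous
    obtain ⟨hs, -⟩ := smooth_partial N hN
    have hD := h c N Ψ hN hΨc
    have h2 := ih _ Ψ hs (hΨ.of_le (by norm_cast; omega))
    have e : deriv (fun x => ∫ τ in c..x, N (τ, x) * Ψ τ) =
        fun x => N (x, x) * Ψ x + ∫ τ in c..x, deriv (fun y => N (τ, y)) x * Ψ τ :=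
      funext fun x => (hD x).deriv
    have h1 : (((n + 1 + 1 : ℕ) : ℕ) : WithTop ℕ∞) = ((n + 1 : ℕ) : WithTop ℕ∞) + 1 := by norm_num
    rw [h1, contDiff_succ_iff_deriv]
    refine ⟨fun x => (hD x).differentiableAt, by simp, ?_⟩
    rw [e]
    refine ContDiff.add (ContDiff.mul ?_ hΨ) h2
    have h3 : ContDiff ℝ ∞ (fun x : ℝ => N (x, x)) := hN.comp (contDiff_id.prodMk contDiff_id)
    exact h3.of_le (by exact_mod_cast le_top)

theorem t_BOOT (h : S_DER) : S_BOOT := by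
  intro c N Ψ g hN hΨ hg heq
  rw [contDiff_infty]
  intro n
  induction n with
  | zero =>
    have h0 : (((0 : ℕ) : ℕ) : WithTop ℕ∞) = 0 := rfl
    rw [h0, contDiff_zero]
    exact hΨ
  | succ n ih =>
    have h1 := int_contDiff h c n N Ψ hN ih
    have h2 : Ψ = fun x => g x + ∫ τ in c..x, N (τ, x) * Ψ τ := funext heq
    rw [h2]
    exact (hg.of_le (by exact_mod_cast le_top)).add h1

end Run7.h817.MO
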