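import Pool.Agent.Run7.h719.MO.Iface
import Pool.Agent.H66R2.RZ_Par

set_option autoImplicit false

open MeasureTheory Set Filter Real
open scoped ContDiff

namespace Run7.h817.MO

open Run7.h719.MO Pool.Agent.H66R2.RZPar

theorem t_PAR : S_PAR :=
  ⟨fun a b F hF => contDiff_int a b ℝ ℝ F hF, fun a b F hF => contDiff_int a b (ℝ × ℝ) ℝ F hF⟩

end Run7.h817.MO
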