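import Pool.Agent.Run7.h719.MO.Iface
import Pool.Agent.H66R2.RZ_Par

set_option autoImplicit false

open MeasureTheory Set Filter Real
open scoped ContDiff Topology

namespace Run7.h817.MO

open Run7.h719.MO Pool.Agent.H66R2.RZPar

/-- the partial derivative in the second variable is smooth -/
theorem smooth_partial (N : ℝ × ℝ → ℝ) (hN : ContDiff ℝ ∞ N) :
    ContDiff ℝ ∞ (fun p : ℝ × ℝ => deriv (fun y => N (p.1, y)) p.2) ∧
    ∀ τ x, HasDerivAt (fun y => N (τ, y)) (deriv (fun y => N (τ, y)) x) x := by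
  have hd : ∀ τ x, HasDerivAt (fun y => N (τ, y)) (fderiv ℝ N (τ, x) (0, 1)) x := by
    intro τ x
    have h1 : HasFDerivAt N (fderiv ℝ N (τ, x)) (τ, x) :=
      ((hN.differentiable (by simp)) (τ, x)).hasFDerivAt
    have h2 : HasDerivAt (fun y : ℝ => (τ, y)) ((0 : ℝ), (1 : ℝ)) x :=
      (hasDerivAt_const x τ).prodMk (hasDerivAt_id x)
    exact h1.comp_hasDerivAt x h2
  refine ⟨?_, fun τ x => ?_⟩
  · have h3 : (fun p : ℝ × ℝ => deriv (fun y => N (p.1, y)) p.2) =
        fun p => fderiv ℝ N p (0, 1) := by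
      funext p
      exact (hd p.1 p.2).deriv
    rw [h3]
    have h1 : ContDiff ℝ ∞ (fderiv ℝ N) := hN.fderiv_right (m := ∞) (by simp)
    exact h1.clm_apply contDiff_const
  · rw [(hd τ x).deriv]
    exact hd τ x

theorem t_DER : S_DER := by
  intro c N Ψ hN hΨ x
  obtain ⟨hs, hd⟩ := smooth_partial N hN
  set N' : ℝ × ℝ → ℝ := fun p => deriv (fun y => N (p.1, y)) p.2 with hN'
  have hNc : Continuous N := hN.continuous
  have hN'c : Continuous N' := hs.continuous
  let f : ℝ → ℝ → ℝ := fun u y => ∫ τ in c..u, N (τ, y) * Ψ τ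
  let f₁ : ℝ → ℝ → ℝ →L[ℝ] ℝ := fun u y => ContinuousLinearMap.toSpanSingleton ℝ (N (u, y) * Ψ u)
  let f₂ : ℝ → ℝ → ℝ →L[ℝ] ℝ := fun u y =>
    ContinuousLinearMap.toSpanSingleton ℝ (∫ τ in c..u, N' (τ, y) * Ψ τ)
  have hcT : Continuous (fun r : ℝ => ContinuousLinearMap.toSpanSingleton ℝ r) :=
    (ContinuousLinearMap.toSpanSingletonCLE (𝕜 := ℝ) (E := ℝ)).continuous
  have h1 : HasStrictFDerivAt (Function.HasUncurry.uncurry f)
      ((Function.HasUncurry.uncurry f₁ (x, x)).coprod (Function.HasUncurry.uncurry f₂ (x, x)))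
      (x, x) := by
    apply hasStrictFDerivAt_uncurry_coprod
    · refine Eventually.of_forall fun v => ?_
      have hc : Continuous (fun τ => N (τ, v.2) * Ψ τ) := by fun_prop
      have := (intervalIntegral.integral_hasDerivAt_right (hc.intervalIntegrable c v.1)
        (hc.stronglyMeasurableAtFilter _ _) hc.continuousAt)
      exact this.hasFDerivAt
    · refine Eventually.of_forall fun v => ?_
      have := hasDerivAt_int c v.1 (fun p => N (p.2, p.1) * Ψ p.2) (fun p => N' (p.2, p.1) * Ψ p.2)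
        (by fun_prop) (by fun_prop) (fun y t => by
          have h4 := (hd t y).mul_const (Ψ t)
          exact h4) v.2
      exact this.hasFDerivAt
    · apply Continuous.continuousAt
      show Continuous (fun p : ℝ × ℝ => ContinuousLinearMap.toSpanSingleton ℝ (N (p.1, p.2) * Ψ p.1))
      exact hcT.comp (by fun_prop)
    · apply Continuous.continuousAt
      show Continuous (fun p : ℝ × ℝ =>
        ContinuousLinearMap.toSpanSingleton ℝ (∫ τ in c..p.1, N' (τ, p.2) * Ψ τ))
      refine hcT.comp ?_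
      exact intervalIntegral.continuous_parametric_intervalIntegral_of_continuous
        (f := fun (p : ℝ × ℝ) τ => N' (τ, p.2) * Ψ τ) (by
          show Continuous (fun q : (ℝ × ℝ) × ℝ => N' (q.2, q.1.2) * Ψ q.2)
          fun_prop) continuous_fst
  have h2 : HasDerivAt (fun y : ℝ => (y, y)) ((1 : ℝ), (1 : ℝ)) x :=
    (hasDerivAt_id x).prodMk (hasDerivAt_id x)
  have h3 := HasFDerivAt.comp_hasDerivAt (f := fun y : ℝ => (y, y)) x h1.hasFDerivAt h2
  have e : (ContinuousLinearMap.toSpanSingleton ℝ (N (x, x) * Ψ x)).coprod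
      (ContinuousLinearMap.toSpanSingleton ℝ (∫ τ in c..x, N' (τ, x) * Ψ τ)) ((1 : ℝ), (1 : ℝ)) =
      N (x, x) * Ψ x + ∫ τ in c..x, N' (τ, x) * Ψ τ := by
    simp [ContinuousLinearMap.coprod_apply]
  have h4 : HasDerivAt (fun x => ∫ τ in c..x, N (τ, x) * Ψ τ)
      ((ContinuousLinearMap.toSpanSingleton ℝ (N (x, x) * Ψ x)).coprod
      (ContinuousLinearMap.toSpanSingleton ℝ (∫ τ in c..x, N' (τ, x) * Ψ τ)) ((1 : ℝ), (1 : ℝ))) x :=
    h3
  rw [e] at h4
  exact h4

end Run7.h817.MO
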